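import Mathlib

/-!
# `I + T` is topologically multiply recurrent for every unilateral weighted shift `T`

If `f` is a polynomial sequence, the vectors `Y n` with the coordinates `(Δ^l f) n / (w_1 ⋯ w_l)`
satisfy `(I + T) (Y n) = Y (n + 1)`. For a basis vector `e_m` we use the polynomials `f_k` with
`f_k (j k + s) → binom(s, m)` for `j = 0, …, N` as `k → ∞`.
-/

namespace Pool.Agent.Results.MP_a8995d_an.MultiplyRecurrent

open Filter Topology

/-- The complex Hilbert space of the square summable sequences indexed by `0, 1, 2, …`. -/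
abbrev ell2 : Type := lp (fun _ : ℕ => ℂ) 2

theorem two_pos' : 0 < (2 : ENNReal).toReal := by norm_num

theorem partial_sum_le (w : ℕ → ℝ) (C : ℝ) (hw : ∀ n, 1 ≤ n → 0 < w n ∧ w n ≤ C) (x : ell2)
    (s : Finset ℕ) :
    ∑ n ∈ s, ‖(w (n + 1) : ℂ) * x (n + 1)‖ ^ (2 : ENNReal).toReal ≤
      (C * ‖x‖) ^ (2 : ENNReal).toReal := by
  have hC : 0 ≤ C := ((hw 1 le_rfl).1.le).trans (hw 1 le_rfl).2
  have h1 : ∀ n ∈ s, ‖(w (n + 1) : ℂ) * x (n + 1)‖ ^ (2 : ENNReal).toReal ≤
      C ^ (2 : ENNReal).toReal * ‖x (n + 1)‖ ^ (2 : ENNReal).toReal := by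
    intro n _
    rw [← Real.mul_rpow hC (norm_nonneg _), norm_mul]
    apply Real.rpow_le_rpow (by positivity) _ two_pos'.le
    apply mul_le_mul_of_nonneg_right _ (norm_nonneg _)
    rw [Complex.norm_real, Real.norm_eq_abs, abs_of_pos (hw (n + 1) (by omega)).1]
    exact (hw (n + 1) (by omega)).2
  refine (Finset.sum_le_sum h1).trans ?_
  rw [← Finset.mul_sum, Real.mul_rpow hC (norm_nonneg _)]
  apply mul_le_mul_of_nonneg_left _ (Real.rpow_nonneg hC _)
  have h2 := lp.sum_rpow_le_norm_rpow two_pos' x (s.image (· + 1))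
  rw [Finset.sum_image (by intro a _ b _ h; simpa using h)] at h2
  exact h2

/-- The weighted backward shift `(x_0, x_1, …) ↦ (w_1 x_1, w_2 x_2, …)` with bounded positive
weights `w_1, w_2, …` (the value `w 0` plays no role), as a bounded operator. -/
noncomputable def weightedShift (w : ℕ → ℝ) (C : ℝ) (hw : ∀ n, 1 ≤ n → 0 < w n ∧ w n ≤ C) :
    ell2 →L[ℂ] ell2 :=
  LinearMap.mkContinuous
    { toFun := fun x => ⟨fun n => (w (n + 1) : ℂ) * x (n + 1),
        memℓp_gen' (C := (C * ‖x‖) ^ (2 : ENNReal).toReal) (partial_sum_le w C hw x)⟩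
      map_add' := by
        intro x y
        apply lp.ext
        funext n
        show (w (n + 1) : ℂ) * (x (n + 1) + y (n + 1)) =
          (w (n + 1) : ℂ) * x (n + 1) + (w (n + 1) : ℂ) * y (n + 1)
        rw [mul_add]
      map_smul' := by
        intro c x
        apply lp.ext
        funext n
        show (w (n + 1) : ℂ) * (c * x (n + 1)) = c * ((w (n + 1) : ℂ) * x (n + 1))
        rw [mul_left_comm] } C (by
    intro x
    have hC : 0 ≤ C := ((hw 1 le_rfl).1.le).trans (hw 1 le_rfl).2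
    exact lp.norm_le_of_forall_sum_le two_pos' (by positivity) (partial_sum_le w C hw x))

theorem weightedShift_apply (w : ℕ → ℝ) (C : ℝ) (hw : ∀ n, 1 ≤ n → 0 < w n ∧ w n ≤ C) (x : ell2)
    (n : ℕ) : weightedShift w C hw x n = (w (n + 1) : ℂ) * x (n + 1) := rfl

/-- `S` is topologically multiply recurrent: for every nonempty open set `U` and every `N ≥ 1` there
is `k ≥ 1` and a point of `U` whose images under `S^k, S^(2k), …, S^(Nk)` are all in `U`. -/
def MultiplyRecurrentOp (S : ell2 →L[ℂ] ell2) : Prop :=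
  ∀ U : Set ell2, IsOpen U → U.Nonempty → ∀ N : ℕ, 1 ≤ N →
    ∃ k : ℕ, 1 ≤ k ∧ ∃ x ∈ U, ∀ j : ℕ, 1 ≤ j → j ≤ N → (S ^ (j * k)) x ∈ U

/-- basis vectors -/
noncomputable def e (l : ℕ) : ell2 := lp.single 2 l (1 : ℂ)

section shift

variable (w : ℕ → ℝ) (C : ℝ) (hw : ∀ n, 1 ≤ n → 0 < w n ∧ w n ≤ C)

theorem shift_e_zero : weightedShift w C hw (e 0) = 0 := by
  apply lp.ext
  funext n
  rw [weightedShift_apply]
  simp [e, lp.single_apply]

theorem shift_e_succ (l : ℕ) : weightedShift w C hw (e (l + 1)) = (w (l + 1) : ℂ) • e l := by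
  apply lp.ext
  funext n
  rw [weightedShift_apply]
  show (w (n + 1) : ℂ) * e (l + 1) (n + 1) = (w (l + 1) : ℂ) * e l n
  by_cases h : n = l
  · subst h
    simp [e, lp.single_apply]
  · simp [e, lp.single_apply, h]

/-- products of the weights -/
noncomputable def pr (w : ℕ → ℝ) : ℕ → ℂ
  | 0 => 1
  | l + 1 => pr w l * w (l + 1)

include hw in
theorem pr_ne_zero : ∀ l, pr w l ≠ 0
  | 0 => one_ne_zero
  | l + 1 => mul_ne_zero (pr_ne_zero l) (by
      have := (hw (l + 1) (by omega)).1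
      exact_mod_cast this.ne')

/-- the vectors of differences -/
noncomputable def Y (L : ℕ) (f : ℕ → ℂ) (n : ℕ) : ell2 :=
  ∑ l ∈ Finset.range (L + 1), ((fwdDiff 1)^[l] f n / pr w l) • e l

theorem diff_succ (f : ℕ → ℂ) (l n : ℕ) :
    (fwdDiff 1)^[l] f (n + 1) = (fwdDiff 1)^[l] f n + (fwdDiff 1)^[l + 1] f n := by
  rw [Function.iterate_succ_apply']
  simp [fwdDiff]

theorem step (L : ℕ) (f : ℕ → ℂ) (hf : ∀ n, (fwdDiff 1)^[L + 1] f n = 0) (n : ℕ) :
    (1 + weightedShift w C hw) (Y w L f n) = Y w L f (n + 1) := by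
  have h1 : weightedShift w C hw (Y w L f n) =
      ∑ l ∈ Finset.range (L + 1), ((fwdDiff 1)^[l + 1] f n / pr w l) • e l := by
    rw [Y, map_sum, Finset.sum_range_succ', map_smul, shift_e_zero, smul_zero, add_zero,
      Finset.sum_range_succ, hf, zero_div, zero_smul, add_zero]
    refine Finset.sum_congr rfl fun l _ => ?_
    rw [map_smul, shift_e_succ, smul_smul]
    congr 1
    have h2 := pr_ne_zero w C hw l
    have h3 : (w (l + 1) : ℂ) ≠ 0 := by exact_mod_cast (hw (l + 1) (by omega)).1.ne'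
    rw [pr]
    field_simp
  rw [add_apply, h1, one_apply_eq_self, Y, Y,
    ← Finset.sum_add_distrib]
  refine Finset.sum_congr rfl fun l _ => ?_
  rw [diff_succ, add_div, add_smul]

theorem steps (L : ℕ) (f : ℕ → ℂ) (hf : ∀ n, (fwdDiff 1)^[L + 1] f n = 0) (n : ℕ) :
    ((1 + weightedShift w C hw) ^ n) (Y w L f 0) = Y w L f n := by
  induction n with
  | zero => simp
  | succ n ih =>
    rw [pow_succ', mul_apply_eq_comp, ih, step w C hw L f hf]

end shift

/-! ### Differences of polynomial sequences -/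

theorem diff_cast (F : ℂ → ℂ) : ∀ (l : ℕ) (n : ℕ),
    (fwdDiff 1)^[l] (fun n : ℕ => F n) n = (fwdDiff 1)^[l] F (n : ℂ)
  | 0, n => rfl
  | l + 1, n => by
    rw [Function.iterate_succ_apply', Function.iterate_succ_apply', fwdDiff, fwdDiff,
      diff_cast F l, diff_cast F l]
    push_cast
    rfl

theorem diff_poly_eq_zero (P : Polynomial ℂ) (L : ℕ) (hP : P.natDegree ≤ L) (n : ℕ) :
    (fwdDiff 1)^[L + 1] (fun n : ℕ => P.eval (n : ℂ)) n = 0 := by
  rw [diff_cast (fun z => P.eval z)]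
  have := Polynomial.fwdDiff_iter_eq_zero_of_degree_lt (P := P) (n := L + 1) (by omega)
  exact congrFun this _

theorem diff_int_cast (h : ℕ → ℤ) : ∀ (l : ℕ) (n : ℕ),
    (fwdDiff 1)^[l] (fun n : ℕ => ((h n : ℤ) : ℂ)) n = (((fwdDiff 1)^[l] h n : ℤ) : ℂ)
  | 0, n => rfl
  | l + 1, n => by
    rw [Function.iterate_succ_apply', Function.iterate_succ_apply', fwdDiff, fwdDiff,
      diff_int_cast h l, diff_int_cast h l]
    push_cast
    rfl

theorem diff_choose (m l : ℕ) :
    (fwdDiff 1)^[l] (fun n : ℕ => ((n.choose m : ℕ) : ℂ)) 0 = if l = m then 1 else 0 := by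
  have h := diff_int_cast (fun n => ((n.choose m : ℕ) : ℤ)) l 0
  have h2 := fwdDiff_iter_choose_zero m l
  simp only [Int.cast_natCast] at h
  rw [h, h2]
  split_ifs <;> simp

theorem diff_tendsto (f : ℕ → ℕ → ℂ) (a : ℕ → ℕ) (g : ℕ → ℂ)
    (h : ∀ s, Tendsto (fun k => f k (a k + s)) atTop (𝓝 (g s))) : ∀ (l s : ℕ),
    Tendsto (fun k => (fwdDiff 1)^[l] (f k) (a k + s)) atTop (𝓝 ((fwdDiff 1)^[l] g s))
  | 0, s => h s
  | l + 1, s => by
    have h1 := diff_tendsto f a g h l (s + 1)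
    have h2 := diff_tendsto f a g h l s
    have h3 := h1.sub h2
    rw [Function.iterate_succ_apply']
    refine h3.congr fun k => ?_
    rw [Function.iterate_succ_apply', fwdDiff, add_assoc]

/-! ### The polynomials -/

/-- the interpolation polynomial -/
noncomputable def chi (N m : ℕ) : Polynomial ℂ :=
  Lagrange.interpolate (Finset.range (N + 1)) (fun j : ℕ => (j : ℂ))
    (fun j => (∏ i ∈ (Finset.range (N + 1)).erase j, ((j : ℂ) - i) ^ m)⁻¹)

theorem chi_eval (N m j : ℕ) (hj : j ≤ N) : (chi N m).eval (j : ℂ) =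
    (∏ i ∈ (Finset.range (N + 1)).erase j, ((j : ℂ) - i) ^ m)⁻¹ := by
  rw [chi, Lagrange.eval_interpolate_at_node (v := fun j : ℕ => (j : ℂ))]
  · intro a _ b _ h
    exact Nat.cast_injective h
  · simpa [Nat.lt_succ_iff] using hj

theorem prod_ne (N m j : ℕ) : (∏ i ∈ (Finset.range (N + 1)).erase j, ((j : ℂ) - i) ^ m) ≠ 0 := by
  rw [Finset.prod_ne_zero_iff]
  intro i hi
  apply pow_ne_zero
  rw [sub_ne_zero]
  intro h
  have : j = i := by exact_mod_cast h
  rw [this] at hi
  simp at hi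

/-- the polynomials `f_k` -/
noncomputable def P (N m k : ℕ) : Polynomial ℂ :=
  (chi N m).comp (Polynomial.C ((k : ℂ)⁻¹) * Polynomial.X) *
    (∏ j ∈ Finset.range (N + 1), ∏ i ∈ Finset.range m,
      (Polynomial.C ((k : ℂ)⁻¹) * (Polynomial.X - Polynomial.C ((j : ℂ) * k + i)))) *
    Polynomial.C ((k : ℂ) ^ m / (m.factorial : ℂ))

theorem P_natDegree (N m k : ℕ) : (P N m k).natDegree ≤ (chi N m).natDegree + (N + 1) * m := by
  rw [P]
  refine (Polynomial.natDegree_mul_C_le _ _).trans ?_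
  refine Polynomial.natDegree_mul_le.trans (add_le_add ?_ ?_)
  · refine Polynomial.natDegree_comp_le.trans ?_
    have : (Polynomial.C ((k : ℂ)⁻¹) * Polynomial.X).natDegree ≤ 1 :=
      (Polynomial.natDegree_C_mul_le _ _).trans Polynomial.natDegree_X_le
    calc _ ≤ (chi N m).natDegree * 1 := Nat.mul_le_mul_left _ this
      _ = _ := mul_one _
  · refine (Polynomial.natDegree_prod_le _ _).trans ?_
    calc _ ≤ ∑ _j ∈ Finset.range (N + 1), m := by
          refine Finset.sum_le_sum fun j _ => ?_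
          refine (Polynomial.natDegree_prod_le _ _).trans ?_
          calc _ ≤ ∑ _i ∈ Finset.range m, 1 := by
                refine Finset.sum_le_sum fun i _ => ?_
                refine (Polynomial.natDegree_C_mul_le _ _).trans ?_
                exact Polynomial.natDegree_X_sub_C_le _
            _ = m := by simp
      _ = _ := by simp

theorem P_eval (N m k j s : ℕ) (hj : j ≤ N) (hk : 1 ≤ k) :
    (P N m k).eval (((j * k + s : ℕ) : ℂ)) = (chi N m).eval ((j : ℂ) + s * (k : ℂ)⁻¹) *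
      (∏ j' ∈ (Finset.range (N + 1)).erase j, ∏ i ∈ Finset.range m,
        (((j : ℂ) - j') + (s - i) * (k : ℂ)⁻¹)) * (s.choose m : ℂ) := by
  have hk0 : (k : ℂ) ≠ 0 := by
    have : k ≠ 0 := by omega
    exact_mod_cast this
  have hmem : j ∈ Finset.range (N + 1) := by simpa [Nat.lt_succ_iff] using hj
  have h0 : (∏ i ∈ Finset.range m, ((s : ℂ) - i)) = (m.factorial : ℂ) * (s.choose m : ℂ) := by
    rw [← descPochhammer_eval_eq_prod_range, descPochhammer_eval_eq_descFactorial,
      Nat.descFactorial_eq_factorial_mul_choose]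
    push_cast
    rfl
  have hm : (m.factorial : ℂ) ≠ 0 := by exact_mod_cast m.factorial_ne_zero
  rw [P, Polynomial.eval_mul, Polynomial.eval_mul, Polynomial.eval_comp, Polynomial.eval_C,
    Polynomial.eval_mul, Polynomial.eval_C, Polynomial.eval_X, Polynomial.eval_prod]
  have h1 : (k : ℂ)⁻¹ * ((j * k + s : ℕ) : ℂ) = (j : ℂ) + s * (k : ℂ)⁻¹ := by
    push_cast
    field_simp
  rw [h1, ← Finset.mul_prod_erase _ _ hmem]
  have h2 : Polynomial.eval (((j * k + s : ℕ) : ℂ)) (∏ i ∈ Finset.range m,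
      (Polynomial.C ((k : ℂ)⁻¹) * (Polynomial.X - Polynomial.C ((j : ℂ) * k + i)))) =
      ((k : ℂ)⁻¹) ^ m * ((m.factorial : ℂ) * (s.choose m : ℂ)) := by
    rw [Polynomial.eval_prod, ← h0]
    have : ((k : ℂ)⁻¹) ^ m = ∏ _i ∈ Finset.range m, (k : ℂ)⁻¹ := by simp
    rw [this, ← Finset.prod_mul_distrib]
    refine Finset.prod_congr rfl fun i _ => ?_
    simp
  have h3 : ∀ j' ∈ (Finset.range (N + 1)).erase j,
      Polynomial.eval (((j * k + s : ℕ) : ℂ)) (∏ i ∈ Finset.range m,
      (Polynomial.C ((k : ℂ)⁻¹) * (Polynomial.X - Polynomial.C ((j' : ℂ) * k + i)))) =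
      ∏ i ∈ Finset.range m, (((j : ℂ) - j') + (s - i) * (k : ℂ)⁻¹) := by
    intro j' _
    rw [Polynomial.eval_prod]
    refine Finset.prod_congr rfl fun i _ => ?_
    simp only [Polynomial.eval_mul, Polynomial.eval_C, Polynomial.eval_sub, Polynomial.eval_X]
    push_cast
    field_simp
    ring
  rw [h2, Finset.prod_congr rfl h3]
  generalize (∏ j' ∈ (Finset.range (N + 1)).erase j, ∏ i ∈ Finset.range m,
        (((j : ℂ) - j') + (s - i) * (k : ℂ)⁻¹)) = Q
  generalize (chi N m).eval ((j : ℂ) + s * (k : ℂ)⁻¹) = x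
  have h5 : ((k : ℂ)⁻¹) ^ m * (k : ℂ) ^ m = 1 := by
    rw [← mul_pow, inv_mul_cancel₀ hk0, one_pow]
  have h6 : (m.factorial : ℂ) * (m.factorial : ℂ)⁻¹ = 1 := mul_inv_cancel₀ hm
  calc x * (((k : ℂ)⁻¹) ^ m * ((m.factorial : ℂ) * (s.choose m : ℂ)) * Q) *
        ((k : ℂ) ^ m / (m.factorial : ℂ)) = x * Q * (s.choose m : ℂ) *
        ((((k : ℂ)⁻¹) ^ m * (k : ℂ) ^ m) * ((m.factorial : ℂ) * (m.factorial : ℂ)⁻¹)) := by
        rw [div_eq_mul_inv]; ring
    _ = x * Q * (s.choose m : ℂ) := by rw [h5, h6]; ring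

theorem P_tendsto (N m j : ℕ) (hj : j ≤ N) (s : ℕ) :
    Tendsto (fun k : ℕ => (P N m k).eval (((j * k + s : ℕ) : ℂ))) atTop (𝓝 (s.choose m : ℂ)) := by
  have hinv : Tendsto (fun k : ℕ => ((k : ℂ))⁻¹) atTop (𝓝 0) :=
    tendsto_inv_atTop_nhds_zero_nat (𝕜 := ℂ)
  have h1 : Tendsto (fun k : ℕ => (chi N m).eval ((j : ℂ) + s * (k : ℂ)⁻¹)) atTop
      (𝓝 ((chi N m).eval ((j : ℂ) + s * 0))) :=
    ((chi N m).continuous.tendsto _).comp (tendsto_const_nhds.add (tendsto_const_nhds.mul hinv))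
  have h2 : Tendsto (fun k : ℕ => ∏ j' ∈ (Finset.range (N + 1)).erase j, ∏ i ∈ Finset.range m,
        (((j : ℂ) - j') + (s - i) * (k : ℂ)⁻¹)) atTop
      (𝓝 (∏ j' ∈ (Finset.range (N + 1)).erase j, ∏ i ∈ Finset.range m,
        (((j : ℂ) - j') + (s - i) * 0))) :=
    tendsto_finsetProd _ fun j' _ => tendsto_finsetProd _ fun i _ =>
      tendsto_const_nhds.add (tendsto_const_nhds.mul hinv)
  have h3 := (h1.mul h2).mul (tendsto_const_nhds (x := (s.choose m : ℂ)))
  have h4 : (chi N m).eval ((j : ℂ) + s * 0) * (∏ j' ∈ (Finset.range (N + 1)).erase j,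
      ∏ i ∈ Finset.range m, (((j : ℂ) - j') + (s - i) * 0)) * (s.choose m : ℂ) =
      (s.choose m : ℂ) := by
    simp only [mul_zero, add_zero, Finset.prod_const, Finset.card_range]
    rw [chi_eval N m j hj, inv_mul_cancel₀ (prod_ne N m j), one_mul]
  rw [h4] at h3
  refine h3.congr' ?_
  filter_upwards [eventually_ge_atTop 1] with k hk
  exact (P_eval N m k j s hj hk).symm

/-! ### The theorem -/

section main

variable (w : ℕ → ℝ) (C : ℝ) (hw : ∀ n, 1 ≤ n → 0 < w n ∧ w n ≤ C)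

/-- the vectors which are limits of `N`-fold returning vectors -/
def A (N : ℕ) : Submodule ℂ ell2 where
  carrier := {x | ∃ y : ℕ → ell2, ∀ j ≤ N,
    Tendsto (fun k => ((1 + weightedShift w C hw) ^ (j * k)) (y k)) atTop (𝓝 x)}
  add_mem' := by
    rintro x x' ⟨y, hy⟩ ⟨y', hy'⟩
    refine ⟨fun k => y k + y' k, fun j hj => ?_⟩
    simpa only [map_add] using (hy j hj).add (hy' j hj)
  zero_mem' := ⟨fun _ => 0, fun j _ => by
    exact (tendsto_const_nhds : Tendsto (fun _ : ℕ => (0 : ell2)) atTop (𝓝 0)).congr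
      fun k => (map_zero _).symm⟩
  smul_mem' := by
    rintro c x ⟨y, hy⟩
    refine ⟨fun k => c • y k, fun j hj => ?_⟩
    simpa only [map_smul] using (hy j hj).const_smul c

theorem e_mem (N m : ℕ) : e m ∈ A w C hw N := by
  set L := (chi N m).natDegree + (N + 1) * m with hL
  have hmL : m ≤ L := by
    have : m ≤ (N + 1) * m := Nat.le_mul_of_pos_left m (Nat.succ_pos N)
    omega
  have key : ∀ j ≤ N, Tendsto (fun k => ((1 + weightedShift w C hw) ^ (j * k))
      (Y w L (fun n => (P N m k).eval (n : ℂ)) 0)) atTop (𝓝 ((1 / pr w m) • e m)) := by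
    intro j hj
    have h1 : ∀ k, ((1 + weightedShift w C hw) ^ (j * k))
        (Y w L (fun n => (P N m k).eval (n : ℂ)) 0) =
        Y w L (fun n => (P N m k).eval (n : ℂ)) (j * k) := fun k =>
      steps w C hw L _ (diff_poly_eq_zero (P N m k) L (P_natDegree N m k)) (j * k)
    have h2 : ∀ l, Tendsto (fun k : ℕ => (fwdDiff 1)^[l] (fun n : ℕ => (P N m k).eval (n : ℂ)) (j * k))
        atTop (𝓝 (if l = m then 1 else 0)) := by
      intro l
      have := diff_tendsto (fun k n => (P N m k).eval (n : ℂ)) (fun k => j * k)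
        (fun s => (s.choose m : ℂ)) (P_tendsto N m j hj) l 0
      rw [diff_choose] at this
      exact this
    have h3 : Tendsto (fun k : ℕ => Y w L (fun n => (P N m k).eval (n : ℂ)) (j * k)) atTop
        (𝓝 (∑ l ∈ Finset.range (L + 1), ((if l = m then (1 : ℂ) else 0) / pr w l) • e l)) := by
      unfold Y
      exact tendsto_finsetSum _ fun l _ => ((h2 l).div_const _).smul_const _
    have h4 : (∑ l ∈ Finset.range (L + 1), ((if l = m then (1 : ℂ) else 0) / pr w l) • e l) =
        (1 / pr w m) • e m := by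
      rw [Finset.sum_eq_single m]
      · simp
      · intro l _ hl
        simp [hl]
      · intro h
        simp at h
        omega
    rw [h4] at h3
    exact h3.congr fun k => (h1 k).symm
  have hmem : (1 / pr w m) • e m ∈ A w C hw N := ⟨_, key⟩
  have := (A w C hw N).smul_mem (pr w m) hmem
  rwa [smul_smul, mul_one_div_cancel (pr_ne_zero w C hw m), one_smul] at this

theorem A_dense (N : ℕ) (x : ell2) : x ∈ closure (A w C hw N : Set ell2) := by
  have h := lp.hasSum_single (E := fun _ : ℕ => ℂ) (p := 2) ENNReal.ofNat_ne_top x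
  refine mem_closure_of_tendsto h (Eventually.of_forall fun s => ?_)
  refine Submodule.sum_mem _ fun i _ => ?_
  have : lp.single 2 i (x i) = (x i) • e i := by
    rw [e, ← lp.single_smul]
    simp
  rw [this]
  exact Submodule.smul_mem _ _ (e_mem w C hw N i)

end main

/-- For every unilateral weighted shift `T` on `ℓ²(ℕ)` (bounded positive weights) the operator
`I + T` is topologically multiply recurrent. -/
theorem result (w : ℕ → ℝ) (C : ℝ) (hw : ∀ n, 1 ≤ n → 0 < w n ∧ w n ≤ C) :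
    MultiplyRecurrentOp (1 + weightedShift w C hw) := by
  intro U hU ⟨x₀, hx₀⟩ N _
  obtain ⟨x, hxU, hxA⟩ := mem_closure_iff.1 (A_dense w C hw N x₀) U hU hx₀
  obtain ⟨y, hy⟩ := hxA
  have h1 : ∀ᶠ k in atTop, ∀ j ∈ Finset.range (N + 1),
      ((1 + weightedShift w C hw) ^ (j * k)) (y k) ∈ U := by
    rw [Filter.eventually_all_finset]
    intro j hj
    exact (hy j (by simpa [Nat.lt_succ_iff] using hj)).eventually (hU.mem_nhds hxU)
  obtain ⟨k, hk, hk1⟩ := (h1.and (eventually_ge_atTop 1)).exists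
  refine ⟨k, hk1, y k, by simpa using hk 0 (by simp), fun j _ hj => hk j ?_⟩
  simpa [Nat.lt_succ_iff] using hj

end Pool.Agent.Results.MP_a8995d_an.MultiplyRecurrent
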